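import Pool.Agent.PW.StmtsA

set_option autoImplicit false

/-!
# Squad PW, row DER (helper99): the derivations of the field of fractions
-/

namespace Pool.Agent.PW.H99

open MvPolynomial Pool.Agent.PW
open Pool.Agent.RS (FF io)

/-- Derivations extend along formally étale maps. -/
theorem ext_etale (R A B M : Type*) [CommRing R] [CommRing A] [CommRing B] [Algebra R A]
    [Algebra R B] [Algebra A B] [IsScalarTower R A B] [AddCommGroup M] [Module R M] [Module A M]
    [Module B M] [IsScalarTower A B M] [IsScalarTower R A M] [IsScalarTower R B M]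
    [Algebra.FormallyEtale A B] (D : Derivation R A M) :
    ∃ D' : Derivation R B M, ∀ a, D' (algebraMap A B a) = D a := by
  let e := KaehlerDifferential.tensorKaehlerEquivOfFormallyEtale R A B
  let f : TensorProduct A B (Ω[A⁄R]) →ₗ[B] M := LinearMap.liftBaseChange B D.liftKaehlerDifferential
  refine ⟨(f ∘ₗ e.symm.toLinearMap).compDer (KaehlerDifferential.D R B), ?_⟩
  intro a
  change f (e.symm (KaehlerDifferential.D R B (algebraMap A B a))) = D a
  rw [KaehlerDifferential.tensorKaehlerEquivOfFormallyEtale_symm_D_algebraMap]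
  simp [f]

variable {E : Type} [Field E]

theorem exists_dd (i : ℕ) :
    ∃ D : Derivation E (FF E) (FF E), ∀ f, D (io E f) = io E (pderiv i f) := by
  have : Algebra.FormallyEtale (MvPolynomial ℕ E) (FF E) :=
    Algebra.FormallyEtale.of_isLocalization (nonZeroDivisors (MvPolynomial ℕ E))
  let D0 : Derivation E (MvPolynomial ℕ E) (FF E) :=
    (Algebra.linearMap (MvPolynomial ℕ E) (FF E)).compDer (pderiv i)
  obtain ⟨D, hD⟩ := ext_etale E (MvPolynomial ℕ E) (FF E) (FF E) D0
  exact ⟨D, hD⟩

theorem dd_io (i : ℕ) (f : MvPolynomial ℕ E) : dd i (io E f) = io E (pderiv i f) := by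
  unfold dd
  rw [dif_pos (exists_dd (E := E) i)]
  exact (exists_dd (E := E) i).choose_spec f

theorem der_div (D : Derivation E (FF E) (FF E)) (u v : FF E) (hv : v ≠ 0) :
    D (u / v) = (v * D u - u * D v) / v ^ 2 := by
  rw [D.leibniz_div, smul_eq_mul, smul_eq_mul, smul_eq_mul, inv_pow]
  rw [div_eq_inv_mul]

theorem der_zero (D : Derivation E (FF E) (FF E)) (h : ∀ f, D (io E f) = 0) : D = 0 := by
  ext w
  obtain ⟨a, b, hb, rfl⟩ := IsFractionRing.div_surjective (A := MvPolynomial ℕ E) w
  have hb0 : algebraMap (MvPolynomial ℕ E) (FF E) b ≠ 0 := by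
    intro h0
    exact nonZeroDivisors.ne_zero hb
      ((injective_iff_map_eq_zero _).1 (IsFractionRing.injective (MvPolynomial ℕ E) (FF E)) b h0)
  have h1 := der_div D (io E a) (io E b) hb0
  rw [h a, h b, mul_zero, mul_zero, sub_zero, zero_div] at h1
  exact h1

theorem pd_comm (i j : ℕ) (f : MvPolynomial ℕ E) :
    pderiv i (pderiv j f) = pderiv j (pderiv i f) := by
  have h : (⁅(pderiv i : Derivation E (MvPolynomial ℕ E) (MvPolynomial ℕ E)), pderiv j⁆ :
      Derivation E (MvPolynomial ℕ E) (MvPolynomial ℕ E)) = 0 := by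
    apply MvPolynomial.derivation_ext
    intro k
    rw [Derivation.commutator_apply, pderiv_X, pderiv_X]
    have h1 : ∀ (a b c : ℕ), (pderiv a : Derivation E (MvPolynomial ℕ E) (MvPolynomial ℕ E))
        ((Pi.single b (1 : MvPolynomial ℕ E) : ℕ → MvPolynomial ℕ E) c) = 0 := fun a b c => by
      by_cases hc : c = b
      · subst hc; rw [Pi.single_eq_same, Derivation.map_one_eq_zero]
      · rw [Pi.single_eq_of_ne hc, map_zero]
    rw [h1, h1, sub_zero]
    rfl
  have h2 := congrArg (fun D : Derivation E (MvPolynomial ℕ E) (MvPolynomial ℕ E) => D f) h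
  have h3 : pderiv i (pderiv j f) - pderiv j (pderiv i f) = 0 := by
    rw [← Derivation.commutator_apply]
    exact h2
  exact sub_eq_zero.1 h3

theorem dd_comm (i j : ℕ) (w : FF E) : dd i (dd j w) = dd j (dd i w) := by
  have h : (⁅(dd i : Derivation E (FF E) (FF E)), dd j⁆ : Derivation E (FF E) (FF E)) = 0 := by
    apply der_zero
    intro f
    rw [Derivation.commutator_apply, dd_io, dd_io, dd_io, dd_io, pd_comm, sub_self]
  have h2 := congrArg (fun D : Derivation E (FF E) (FF E) => D w) h
  have h3 : dd i (dd j w) - dd j (dd i w) = 0 := by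
    rw [← Derivation.commutator_apply]
    exact h2
  exact sub_eq_zero.1 h3

/-- DER -/
theorem der : DerStmt := fun _ _ => ⟨fun i f => dd_io i f, fun i j w => dd_comm i j w,
  fun D u v hv => der_div D u v hv⟩

end Pool.Agent.PW.H99
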